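import Pool.Agent.H76.VE.S
import Pool.Agent.H72.T4C.Wnt
import Pool.Agent.H19.V0B.Rec
import Pool.Agent.H23.D2.Rcq

/-!
# Followers of one slope and a steeper target: the record with the tie

`EndE`: the class end with its constant. `core_e`: no record with a thin target and the tie in the
window `t`.
-/

set_option autoImplicit false

namespace Pool.VE76

open Finset Real MvPolynomial
open Pool.Agent.H49.Ent Pool.Agent.H32.Dense Pool.STK Pool.KA Pool.KSAT Pool.K2S Pool.PB Pool.GEN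
open Pool.S6C Pool.RCD Pool.LA91 Pool.OWN68 Pool.PKG Pool.V0F
open Pool.D2R (BalD WinB gnh hyb hybH winb_con)
open Pool.CHT (chsys TmH bet)
open Pool.ISO (lvN)
open Pool.AJW (CfB)
open Pool.LBT (ThrOf)
open Pool.ST76 (V0OutP)
open Pool.T4C72 (WnT RadT SubW WinbAt wnt_of rec_balT)
open Pool.VW33 (FBox chE)
open Pool.V0B19 (grS)

/-- **The class end**, any target, the conclusion on a part, with the constant `C`. -/
def EndE (m D K r₁ r C : ℕ) : Prop := ∀ {S : PCl m}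
    {P : List (Fin m) × Fin m → ℝ → ℝ → ℝ} {θ : ℝ} {c : ℕ → Fin m}
    {C₀ a' Eb ηm ζ : ℝ} {o η σ r₀ : ℕ → ℝ} {lv bb : ℕ → ℕ → ℝ} {Dr N nb n : ℕ} {a w : ℚ}
    {q₁ s₁ h h₂ e φ ι K₁ K₂ κc : ℝ} (zz : ℕ → ℕ → ℕ → ℕ), S.Ne → TmC S 6 →
    (∀ (τ : ℝ) (J : ℕ) (F : Fam m J) (A : F.Ω → Prop), S.St τ J F A → 0 < Pe F.p A) →
    ThrOf (chsys m θ) S P → TmH S → Set.InjOn c (Set.Iio (r + 1)) → D ≤ Dr →
    nb + n ≤ N → (∀ k < nb, o k ≤ o (k + 1)) → 0 < ζ → C * (C₀ * ηm) ≤ ζ →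
    (∀ k ≤ nb, ∀ l < r₁, C * |lv k l - o k - (lv nb l - o nb)| ≤ ζ) →
    (∀ k, k = nb ∨ k = nb + n → o k + C * ζ ≤ 1 ∧ ∀ l ≤ r, C * ζ ≤ lv k l ∧
      Eb + lv k l + C * ζ ≤ 1) → 0 ≤ o 0 → o 0 < 1 → 0 ≤ o nb → o nb < 1 →
    -- the numbers of the end
    o nb ≤ w → w ≤ o nb + ζ → 0 ≤ w → w ≤ a → a ≤ 1 → w < 1 → e < θ * w →
    0 < h → 0 ≤ h₂ → 0 ≤ q₁ → bet P c r a w + h ≤ 1 →
    Eb + C * ζ + 2 * h₂ ≤ e →
    bet P c r a w + h + C * ζ + 2 * h₂ ≤ lv nb r + s₁ + (a - w) →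
    bet P c r a w + h + C * ζ + 2 * h₂ ≤ lv (nb + n) r - (o (nb + n) - w) + (a - w) →
    bet P c r a w + h + C * ζ + 2 * h₂ + q₁ ≤ lv nb r + 2 * (a - w) → q₁ + C * ζ ≤ a - w →
    (∀ l ≤ r, Eb + lv nb l + 2 * (a - w) + C * ζ ≤ 1) →
    (∀ l ≤ r, Eb + lv nb l + max s₁ 0 + 2 * q₁ + C * ζ ≤ 1) →
    (∀ j < r, lv nb j ≤ lv nb r + ζ + h₂ ∨
      bet P c r a w + h ≤ lv nb r + (a - w) + ζ + h₂) →
    o nb + 2 * φ ≤ w → 0 < ι → ι < ζ → 0 < s₁ → 0 < K₁ → 0 < K₂ → 0 < κc →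
    -- the radii
    (∃ J₁ : ℕ, ∀ J ≥ J₁, (∀ k ≤ N, ∀ i ≤ 2, r₀ k * J ≤ zz J k i ∧
        zz J k i ≤ ⌊a' * J⌋₊ - ⌊o k * J⌋₊) ∧
      (∀ k < nb + n, zz J k 0 = ⌊o (k + 1) * J⌋₊ - ⌊o k * J⌋₊) ∧ (zz J nb 1 : ℝ) ≤ q₁ * J ∧
      2 * φ * J + 1 ≤ zz J nb 1 ∧ ⌊o nb * J⌋₊ + zz J nb 2 ≤ ⌊(a : ℝ) * J⌋₊ ∧
      (a : ℝ) * J ≤ ⌊o nb * J⌋₊ + zz J nb 2 + ζ * J + 2) →
    -- the windows
    (∀ κ : ℝ, 0 < κ → Bas S (fun J F A => ∀ z : ℕ → ℕ → ℕ,
      (∀ k ≤ N, ∀ i ≤ 2, r₀ k * J ≤ z k i ∧ z k i ≤ ⌊a' * J⌋₊ - ⌊o k * J⌋₊) →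
      ∃ (B : F.Ω → Prop) (g₀ : ℕ → ℕ → ℕ) (G : ℕ → PtT F → ℕ → MvPolynomial (Option (Fin m)) ℝ)
        (H : ℕ → LnT F → ℕ → MvPolynomial (Option (Fin m)) ℝ), Sub B A ∧
        Pe F.p A ≤ K₁ * Pe F.p B ∧
        WinB F c r D Dr N 2 C₀ a' Eb ηm o η σ lv bb κ z B g₀ G H)) →
    -- the class theorem
    Bas S (fun J F A => ∀ {κ : ℝ} {g₀ : ℕ → ℕ → ℕ}
      {Gc : ℕ → PtT F → ℕ → MvPolynomial (Option (Fin m)) ℝ}
      {H : ℕ → LnT F → ℕ → MvPolynomial (Option (Fin m)) ℝ}, κ ≤ κc →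
      WinB F c r D Dr N 2 C₀ a' Eb ηm o η σ lv bb κ (zz J) A g₀ Gc H →
      (∀ l < r₁, CfB F ⌊o 0 * J⌋₊ 1 (c l) A (fun s => s) (fun s => H 0 s l)) →
      (∀ l, r₁ ≤ l → l ≤ r → CfB F ⌊o nb * J⌋₊ 1 (c l) A (fun s => s) (fun s => H nb s l)) →
      V0OutP F c r K (o nb) φ ι s₁ K₂ A (g₀ nb) (hyb Gc 0 nb r₁) (Gc (nb + n))) →
    False

/-- **The class end.** -/
theorem end_e (m D K r₁ r : ℕ) (hr₁ : r₁ ≤ r) (hD : 1 ≤ D) : ∃ C : ℕ, 1 ≤ C ∧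
    EndE m D K r₁ r C :=
  Pool.ST76.v0_clsEndP m D K r₁ r hr₁ hD

/-- A smaller precision of the closed gradient. -/
theorem V0OutP.s1 {m J : ℕ} {F : Fam m J} {c : ℕ → Fin m} {r K : ℕ} {w φ ι s₁ s₂ K₂ : ℝ}
    {A : F.Ω → Prop} {g : ℕ → ℕ} {Q G' : PtT F → ℕ → MvPolynomial (Option (Fin m)) ℝ}
    (h : V0OutP F c r K w φ ι s₁ K₂ A g Q G') (hs : s₂ ≤ s₁) :
    V0OutP F c r K w φ ι s₂ K₂ A g Q G' := by
  obtain ⟨B, W, mu, a1, a2, a3, a4, a5, a6, a7, a8⟩ := h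
  have hp : (2 : ℝ) ^ (-(s₁ * J)) ≤ 2 ^ (-(s₂ * J)) := by
    refine Real.rpow_le_rpow_of_exponent_le one_le_two (neg_le_neg ?_)
    exact mul_le_mul_of_nonneg_right hs (Nat.cast_nonneg J)
  exact ⟨B, W, mu, a1, a2, a3, a4, a5, a6, fun ω ν h1 h2 h3 i hi =>
    (a7 ω ν h1 h2 h3 i hi).trans hp, fun ω h1 i hi => (a8 ω h1 i hi).trans hp⟩

/-- **No record with the tie** in the window `t`. -/
theorem core_e {k f D Kd Dr Dr₀ S₀ C : ℕ} {Λt φL φc κ₂ s₁ β ζ CB : ℝ}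
    (hend : EndE (k + f + 1) D Kd k (k + f) C) (hC : 1 ≤ C) (hkf : 1 ≤ k + f) (hDr : D ≤ Dr)
    (hDr₀ : Dr₀ ≤ Dr) (hCB : 1 ≤ CB) (hwin : WinbAt (k + f + 1) (k + f) S₀ D Dr CB)
    -- the numbers
    (hκs : κ₂ ≤ s₁) (hκ1 : κ₂ ≤ 1) (hβ : 0 < β) (hβκ : 32 * β ≤ κ₂) (hζ0 : 0 < ζ)
    (hζ1 : ζ ≤ 1 / 32) (hφL0 : 0 < φL) (hφL : 16 * φL ≤ ζ) (hφc : 0 < φc) (hφcL : φc ≤ φL)
    -- the record
    {S : PCl (k + f + 1)} {al' : ℝ} {g₀ : ℝ → ℝ}
    {P : List (Fin (k + f + 1)) × Fin (k + f + 1) → ℝ → ℝ → ℝ}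
    {θ : ℝ} {P₂ : ℕ → List (Fin (k + f + 1)) × Fin (k + f + 1) → ℝ → ℝ → ℝ} {θ₂ Eb e₂ : ℕ → ℝ}
    {c : ℕ → Fin (k + f + 1)} {Pt : ℝ → ℝ → ℝ} {rt : ℝ → ℝ} {h K₀ g : ℝ} {L Tb : ℕ → ℝ → ℝ → ℝ}
    {Sl : ℕ → ℝ} {κ : ℕ → Kg} {G : Set ℝ} {N : ℕ} {A V : ℕ → ℝ} {S₂ N' : ℕ} {V' : ℕ → ℝ}
    {K ε q t : ℝ}
    (R : RecG S al' g₀ P θ P₂ θ₂ Eb e₂ c Pt rt h K₀ g L Tb Sl κ G S₀ N A V S₂ N' V' K ε q t)
    (hβs : 32 * β ≤ Sl (k + f) - 1) (hζ : C * ζ * (Sl (k + f) + 1) = β)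
    {M₀ cb co : ℕ} (hM : 1 ≤ M₀) (hco : 1 ≤ co) (hN' : (cb + co) * M₀ + 1 ≤ N')
    (hV' : ∀ j < (cb + co) * M₀ + 1, V' j = chV M₀ cb j)
    (hK : (cb : ℝ) + co + Λt + Sl (k + f) + 10 ≤ K) (hΛt : 0 ≤ Λt)
    (hε : 0 < ε) (hεc : 4 * ε ≤ φc) (hεz : 2 * C * ε ≤ ζ) (hεβ : 16 * ε ≤ β)
    (hMφ : 1 / M₀ ≤ φc) (hSl : ∀ l < k, Sl l = 1) (hs : 1 < Sl k)
    (hκt : κ (k + f) = .thin) (hj₀ : ∃ j < N, A j = 1 ∧ V j = ζ / 2)
    (htie : TieE S c k f D Kd (fun l v => L l v v) (grS M₀ cb co t q) (Sl k) (t - cb * q) t q Λt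
      (φL * q) (φc * q) (ζ / 2) s₁ Dr₀) : False := by
  have hq0 := R.q0
  have ht0 := R.t0
  have ht1 := R.t1
  have hC1 : (1 : ℝ) ≤ C := by exact_mod_cast hC
  have hC0 : (0 : ℝ) < C := by linarith
  have hM0 : (0 : ℝ) < M₀ := by exact_mod_cast hM
  have hcb0 : (0 : ℝ) ≤ cb := Nat.cast_nonneg _
  have hco0 : (1 : ℝ) ≤ co := by exact_mod_cast hco
  have hs1 : 1 < Sl (k + f) := by linarith
  have hK1 : 1 ≤ K := by linarith
  have hKq : cb * q + co * q + Λt * q + Sl (k + f) * q + 10 * q ≤ K * q := by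
    have := mul_le_mul_of_nonneg_right hK hq0.le
    linarith
  have hcbq : 0 ≤ cb * q := by positivity
  have hcoq : q ≤ co * q := le_mul_of_one_le_left hq0.le hco0
  have hΛq : 0 ≤ Λt * q := by positivity
  have hsq : q < Sl (k + f) * q := by
    have := mul_lt_mul_of_pos_right hs1 hq0
    linarith
  have hεq : 0 < ε * q := by positivity
  have hφcq : 0 < φc * q := by positivity
  have hφLq : 0 < φL * q := by positivity
  have hqM : q / M₀ ≤ φc * q := by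
    have h1 := mul_le_mul_of_nonneg_right hMφ hq0.le
    have h2 : 1 / (M₀ : ℝ) * q = q / M₀ := by ring
    linarith
  have hφcLq : φc * q ≤ φL * q := mul_le_mul_of_nonneg_right hφcL hq0.le
  have hφLζ : 16 * (φL * q) ≤ ζ * q := by
    have := mul_le_mul_of_nonneg_right hφL hq0.le
    linarith
  have hζq0 : 0 < ζ * q := by positivity
  have hζq : ζ * q ≤ 1 / 32 * q := mul_le_mul_of_nonneg_right hζ1 hq0.le
  have hβq0 : 0 < β * q := by positivity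
  have hβm1 : β * q ≤ 1 / 32 * q := mul_le_mul_of_nonneg_right (by linarith) hq0.le
  have hκ0 : 0 < κ₂ := by linarith
  -- the windows
  obtain ⟨nb, hnb⟩ : ∃ nb : ℕ, nb = cb * M₀ := ⟨_, rfl⟩
  obtain ⟨ow, how⟩ : ∃ ow : ℕ → ℝ, ow = fun k => t + chV M₀ cb k * q := ⟨_, rfl⟩
  have hok : ∀ k, ow k = t + chV M₀ cb k * q := fun k => by rw [how]
  have how0 : ow 0 = t - cb * q := by rw [hok, chV_zero]; ring
  have hownb : ow nb = t := by rw [hok, hnb, chV_mid hM]; ring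
  have hownn : ow (nb + M₀) = t + q := by
    rw [hok, hnb, chV_nb hM, div_self hM0.ne']
    ring
  have hNN : nb + M₀ < (cb + co) * M₀ + 1 := by
    rw [hnb, add_mul]
    have h2 : M₀ ≤ co * M₀ := Nat.le_mul_of_pos_left _ (by omega)
    omega
  have hVK : ∀ k' < (cb + co) * M₀ + 1, |chV M₀ cb k'| ≤ K := fun k' hk' =>
    (chV_abs (M₀ := M₀) (cb := cb) (co := co) (k := k') hM hk').trans (by linarith)
  have hin : ∀ y : ℝ, t - cb * q ≤ y → y ≤ t + co * q → |y - t| ≤ K * q := fun y h1 h2 => by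
    rw [abs_le]
    constructor <;> linarith
  have W := R.tg (k + f) hkf (by omega)
  have hEb := W.Eb0
  have hEbe := W.Ebe
  have hroom : ∀ y : ℝ, t - cb * q ≤ y → y ≤ t + co * q → ∀ l ≤ k + f,
      L l y y + Eb (k + f) + 3 * K * q < 1 := fun y h1 h2 l hl => W.room l hl y (hin y h1 h2)
  have h3K : 3 * q ≤ 3 * K * q := by
    have := mul_le_mul_of_nonneg_right hK1 hq0.le
    linarith
  have hlow : ∀ y : ℝ, t - cb * q ≤ y → y ≤ t + co * q → ∀ l ≤ k + f, y ≤ L l y y :=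
    fun y h1 h2 l hl => R.low_at (by omega) (by linarith) le_rfl (by linarith)
  have htco : t ≤ t + co * q := by linarith
  have htcb : t - cb * q ≤ t := by linarith
  -- the error of the balls
  obtain ⟨ηm, hηm⟩ : ∃ ηm : ℝ, ηm = min (ζ / (C * CB)) (φc / CB) * q := ⟨_, rfl⟩
  have hCB0 : 0 < CB := by linarith
  have hηm0 : 0 < ηm := by
    rw [hηm]
    exact mul_pos (lt_min (by positivity) (by positivity)) hq0
  have hηm1 : C * (CB * ηm) ≤ ζ * q := by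
    have h1 : ηm ≤ ζ / (C * CB) * q := by
      rw [hηm]
      exact mul_le_mul_of_nonneg_right (min_le_left _ _) hq0.le
    calc C * (CB * ηm) ≤ C * (CB * (ζ / (C * CB) * q)) :=
          mul_le_mul_of_nonneg_left (mul_le_mul_of_nonneg_left h1 hCB0.le) hC0.le
      _ = ζ * q := by field_simp
  have hηm2 : CB * ηm ≤ φc * q := by
    have h1 : ηm ≤ φc / CB * q := by
      rw [hηm]
      exact mul_le_mul_of_nonneg_right (min_le_right _ _) hq0.le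
    calc CB * ηm ≤ CB * (φc / CB * q) := mul_le_mul_of_nonneg_left h1 hCB0.le
      _ = φc * q := by field_simp
  obtain ⟨r₀, hr₀e⟩ : ∃ r₀ : ℝ, r₀ = min (q / (2 * M₀)) (ζ / 2 * q / 2) := ⟨_, rfl⟩
  have hr₀ : 0 < r₀ := by
    rw [hr₀e]
    exact lt_min (by positivity) (by positivity)
  obtain ⟨lv, hlv⟩ : ∃ lv : ℕ → ℕ → ℝ, lv = fun t' l => L l (ow t') (ow t') := ⟨_, rfl⟩
  have hlve : ∀ t' l, lv t' l = L l (ow t') (ow t') := fun t' l => by rw [hlv]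
  -- the balls
  have hfam : ∃ (K₁ : ℝ) (b : ℕ → ℕ → ℝ), 0 < K₁ ∧ ∀ κ' : ℝ, 0 < κ' →
      Bas S (fun J F A => ∀ z : ℕ → ℕ → ℕ, (∀ t' ≤ nb + M₀, ∀ j ≤ 2, r₀ * J ≤ z t' j ∧
        z t' j ≤ ⌊(t + 3 * q) * J⌋₊ - ⌊ow t' * J⌋₊) →
      ∃ (B : F.Ω → Prop) (g₀ : ℕ → ℕ → ℕ)
        (Gc : ℕ → PtT F → ℕ → MvPolynomial (Option (Fin (k + f + 1))) ℝ)
        (H : ℕ → LnT F → ℕ → MvPolynomial (Option (Fin (k + f + 1))) ℝ), Sub B A ∧
        Pe F.p A ≤ K₁ * Pe F.p B ∧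
        WinB F c (k + f) D Dr (nb + M₀) 2 CB (t + 3 * q) (Eb (k + f)) ηm ow (fun _ => ηm)
          (fun _ => ηm) lv b κ' z B g₀ Gc H) := by
    obtain ⟨K₁, b, hK₁, hb⟩ := hwin (S := S) (P := P) (θ := θ) (c := c) (Pt := L (k + f))
      (a := t + 3 * q) (Eb := Eb (k + f)) (ηm := ηm) (o := ow) (η := fun _ => ηm)
      (σ := fun _ => ηm) (r₀ := fun _ => r₀) (nb + M₀) 2 R.thr R.th0 R.tmh
      (R.inj.mono fun y hy => by
        rw [Set.mem_Iio] at hy ⊢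
        omega) (R.lawL (k + f) (by omega)) hEb.le (fun k' hk' => by
        rw [hok, ← hV' k' (by omega)]
        have h1 := abs_le.1 (hVK k' (by omega))
        have h2 : chV M₀ cb k' ≤ 1 := by
          have h3 := chV_mono (M₀ := M₀) (cb := cb) hk'
          rwa [hnb, chV_nb hM, div_self hM0.ne'] at h3
        rw [← hV' k' (by omega)] at h1 h2
        refine rec_balT R (by omega) (by omega) (by omega) (by linarith) (by linarith [h1.1]) ?_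
        rw [hV' k' (by omega)]
        exact hVK k' (by omega))
      (fun k' _ => ⟨hηm0, hηm0, le_rfl, hr₀, le_rfl⟩)
    refine ⟨K₁, b, hK₁, fun κ' hκ' => ?_⟩
    refine Bas.mono 0 (hb κ' hκ') ?_
    intro J _ F A' hA z hz
    obtain ⟨B, g₁, Gc, H, b1, b2, b3⟩ := hA z hz
    refine ⟨B, g₁, Gc, H, b1, b2, ?_⟩
    refine WinB.lvc b3 fun k' _ l hl => ?_
    rw [hlve, ← R.lv_at (i := k + f) (by omega) hl]
  obtain ⟨K₁, bb, hK₁, hwin'⟩ := hfam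
  -- the tie
  have hwn : WnT k f (fun l v => L l v v) (grS M₀ cb co t q) (Sl k) (t - cb * q) t q Λt (φc * q)
      (nb + M₀) CB (Eb (k + f)) ηm ow lv (fun t' => t') (fun t' => nb + t') nb M₀
      ⌊(M₀ : ℝ) / Sl k⌋₊ := by
    rw [hlv]
    refine wnt_of (N' := (cb + co) * M₀ + 1) hM hco rfl hnb hok hq0 hs hqM hηm2 fun l hl => ?_
    have h3 : Λt * q ≤ 3 * K * q := mul_le_mul_of_nonneg_right (by linarith) hq0.le
    have := hroom t htcb htco l hl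
    linarith
  obtain ⟨K₂, κT, hK₂, hκT, hT⟩ := htie (Dr := Dr) (a := t + 3 * q) (η := fun _ => ηm)
    (σ := fun _ => ηm) (bb := bb) hDr₀ hwn
  -- the last windows
  obtain ⟨j, hj, hj1, hj2⟩ := hj₀
  obtain ⟨d, hd, hrat⟩ := W.rat j hj (β / 8 * q) (by positivity)
  rw [hj1, hj2, one_mul] at hrat
  obtain ⟨a, ha1, ha2⟩ : ∃ a : ℚ, t + q < a ∧ (a : ℝ) < t + q + min d (β * q) :=
    exists_rat_btwn (by
      have : 0 < min d (β * q) := lt_min hd (by positivity)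
      linarith)
  obtain ⟨w, hw1, hw2⟩ : ∃ w : ℚ, t + ζ / 2 * q < w ∧
      (w : ℝ) < t + ζ / 2 * q + min d (ζ * q / 4) := exists_rat_btwn (by
      have : 0 < min d (ζ * q / 4) := lt_min hd (by positivity)
      linarith)
  have ha3 := min_le_left d (β * q)
  have ha4 := min_le_right d (β * q)
  have hw3 := min_le_left d (ζ * q / 4)
  have hw4 := min_le_right d (ζ * q / 4)
  have hζ2 : ζ / 2 * q = ζ * q / 2 := by ring
  have hwa : (w : ℝ) ≤ a := by linarith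
  have hbr := (hrat a w ha1.le (by linarith) hw1.le (by linarith) hwa).1
  have hkd := R.kd (k + f) (by omega)
  rw [hκt] at hkd
  obtain ⟨-, hthin⟩ := hkd
  have hth := hthin (t + q) (t + ζ / 2 * q) (by linarith) (by linarith) (by linarith)
  have hdT := abs_le.1 (R.dT (k + f) (by omega) (t + ζ / 2 * q) (by
    rw [add_sub_cancel_left, abs_of_pos (by positivity)]
    linarith))
  have hdL1 := abs_le.1 (R.dL (k + f) (by omega) (t + q) (by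
    rw [add_sub_cancel_left, abs_of_pos hq0]
    linarith))
  have hrt := hroom t htcb htco
  have hnum := v0_nmR (C := C) (q := q) (t := t) (β := β) (ζ := ζ) (s := Sl (k + f)) (κ₂ := κ₂)
    (ε := ε) (L0 := L (k + f) t t) (LN := L (k + f) (t + q) (t + q))
    (bt := bet (P₂ (k + f)) c (k + f) a w) (Eb := Eb (k + f))
    (e := e₂ (k + f)) (a := a) (w := w) hq0 hC1 hβ hβκ hβs hκ1 hζ0 hζ hε.le (by linarith) (by
      have h1 : (Sl (k + f) - 1) * (ζ / 2 * q) =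
        Sl (k + f) * (t + ζ / 2 * q - t) - ζ / 2 * q := by ring
      rw [h1]
      linarith [hdT.2]) (by
      have h1 : Sl (k + f) * (t + q - t) = Sl (k + f) * q := by ring
      rw [h1] at hdL1
      linarith [hdL1.1]) ha1.le (by linarith) hw1.le (by linarith) (by
      have := hrt (k + f) le_rfl
      linarith) hEb (by linarith)
  obtain ⟨n1, n2, n3, n4, n5, n6, n7, n8, n9, n10, n11, n12⟩ := hnum
  have hCζ : C * (ζ * q) ≤ q := by
    have h1 : C * ζ ≤ 1 := by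
      have h2 : C * ζ ≤ C * ζ * (Sl (k + f) + 1) :=
        le_mul_of_one_le_right (by positivity) (by linarith)
      linarith
    have h2 := mul_le_mul_of_nonneg_right h1 hq0.le
    linarith
  have hlvt : ∀ l, lv nb l = L l t t := fun l => by rw [hlve, hownb]
  have hlvn : ∀ l, lv (nb + M₀) l = L l (t + q) (t + q) := fun l => by rw [hlve, hownn]
  obtain ⟨J₁, hJ₁⟩ := radii_ok (M₀ := M₀) (cb := cb) (t := t) (q := q) (a := a)
    (q₁ := ζ / 2 * q) (φ := φL * q) (ζ := ζ * q) hM hq0 (by linarith) ha1.le n3 (by positivity)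
    (by linarith) (by linarith) hζq0.le
  simp only [← hok, ← hnb, ← hr₀e] at hJ₁
  -- the end
  refine hend (S := S) (P := P₂ (k + f)) (θ := θ₂ (k + f)) (c := c) (C₀ := CB) (a' := t + 3 * q)
    (Eb := Eb (k + f)) (ηm := ηm) (ζ := ζ * q) (o := ow) (η := fun _ => ηm) (σ := fun _ => ηm)
    (r₀ := fun _ => r₀) (lv := lv) (bb := bb) (Dr := Dr) (N := nb + M₀)
    (nb := nb) (n := M₀) (a := a) (w := w) (q₁ := ζ / 2 * q) (s₁ := κ₂ * q) (h := β * q)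
    (h₂ := 2 * (β * q)) (e := e₂ (k + f)) (φ := φL * q) (ι := ζ / 2 * q) (K₁ := K₁) (K₂ := K₂)
    (κc := κT)
    (fun J => zzV M₀ cb t q a (ζ / 2 * q) J) R.ne R.tmc R.pos W.thr₂ R.tmh
    (R.inj.mono fun x hx => by
      rw [Set.mem_Iio] at hx ⊢
      omega) hDr
    le_rfl (fun k' _ => ?_) hζq0 hηm1 (fun k' hk' l hl => ?_) (fun k' hk' => ?_) ?_ ?_ ?_ ?_ ?_
    ?_ ?_ (by exact_mod_cast hwa) ?_ ?_ ?_ hβq0 (by positivity) (by positivity) n4 n5 ?_ ?_ ?_ n9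
    (fun l hl => ?_) (fun l hl => ?_) (fun j _ => Or.inr ?_) ?_ (by positivity) (by linarith)
    (by positivity) hK₁ hK₂ hκT ⟨J₁, fun J hJ => ?_⟩ hwin' ?_
  · simp only [hok]
    exact (chw_step hM hq0 hqM k').1
  · rw [hlve, hlve, hownb]
    have h2 := R.dL l (by omega) (ow k') (by
      rw [hok, add_sub_cancel_left, abs_mul, abs_of_pos hq0]
      exact mul_le_mul_of_nonneg_right (hVK k' (by omega)) hq0.le)
    rw [hSl l hl, one_mul] at h2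
    have e : L l (ow k') (ow k') - L l t t - (ow k' - t) =
      L l (ow k') (ow k') - ow k' - (L l t t - t) := by ring
    rw [e] at h2
    have h3 : C * (ε * q) ≤ ζ * q := by
      have := mul_le_mul_of_nonneg_right hεz hq0.le
      have h4 : 0 ≤ C * (ε * q) := by positivity
      linarith
    exact (mul_le_mul_of_nonneg_left h2 hC0.le).trans h3
  · rcases hk' with rfl | rfl
    · refine ⟨by rw [hownb]; linarith, fun l hl => ?_⟩
      rw [hlvt l]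
      have h1 := hlow t htcb htco l hl
      have h2 := hrt l hl
      constructor <;> linarith
    · refine ⟨by rw [hownn]; linarith, fun l hl => ?_⟩
      rw [hlvn l]
      have h1 := hlow (t + q) (by linarith) (by linarith) l hl
      have h2 := hroom (t + q) (by linarith) (by linarith) l hl
      constructor <;> linarith
  · rw [how0]; linarith
  · rw [how0]; linarith
  · rw [hownb]; linarith
  · rw [hownb]; linarith
  · rw [hownb]; linarith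
  · rw [hownb]; exact n1
  · have h1 : (0 : ℝ) ≤ w := by linarith
    exact_mod_cast h1
  · have h1 : (a : ℝ) ≤ 1 := by linarith
    exact_mod_cast h1
  · have h1 : (w : ℝ) < 1 := by linarith
    exact_mod_cast h1
  · exact W.eθ w (by
      rw [abs_le]
      constructor <;> linarith)
  · rw [hlvt]
    exact n6
  · rw [hlvn, hownn]
    exact n7
  · rw [hlvt]
    exact n8
  · rw [hlvt]
    refine n10 _ ?_
    have := hrt l hl
    linarith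
  · rw [hlvt]
    refine n11 _ ?_
    have := hrt l hl
    linarith
  · rw [hlvt]
    exact n12
  · rw [hownb]; linarith
  · obtain ⟨z1, z2, z3, z4, z5, z6, z7⟩ := hJ₁ J hJ
    refine ⟨z1, fun k' _ => z2 k', z3 nb, z4 nb, ?_, ?_⟩
    · rw [hownb]
      exact z5 nb
    · rw [hownb]
      exact z6 nb
  · refine Bas.mono J₁ hT ?_
    rintro J hJ F A' h1 κ' g₁ Gc H hκ hW' hc1 hc2
    obtain ⟨z1, z2, z3, z4, z5, z6, z7⟩ := hJ₁ J hJ
    have hJ0 : (0 : ℝ) ≤ J := Nat.cast_nonneg J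
    rw [how0] at hc1
    rw [hownb] at hc2 ⊢
    refine V0OutP.s1 (h1 hκ hW' ⟨fun t' _ => ⟨0, by omega, z2 t'⟩, fun t' _ =>
      ⟨0, by omega, z2 (nb + t')⟩, 1, by omega, 2, le_rfl,
      (z3 0).trans (mul_le_mul_of_nonneg_right (by linarith) hJ0), z7 0⟩ hc1 hc2)
      (mul_le_mul_of_nonneg_right hκs hq0.le)

end Pool.VE76
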