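import Pool.Agent.H33.VW.S
import Pool.Agent.H76.ST.ClsR

/-!
# Followers of one slope and a steeper target over slope-one places: the tie and no record

`TieE`: in one window `w`, unit `u`, for all windows of the charts, the gradient of the last place
`c (k + f)` over the frame `chE` is closed on a part of each large event. `TieEStmt`: for the records
of the slopes `Sl`, in a subclass, the tie holds in one of finitely many smaller boxes: for a pair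
`(ν, μ)` the window `t + (μ / ν) q`, the unit `q / ν`.
-/

set_option autoImplicit false

namespace Pool.VE76

open Finset Real MvPolynomial
open Pool.Agent.H49.Ent Pool.Agent.H32.Dense
open Pool.STK hiding pr2
open Pool.KA Pool.KSAT Pool.K2S Pool.PB Pool.S6C
open Pool.GEN Pool.LA91 Pool.RCD Pool.OWN68 Pool.V0F Pool.V0T Pool.V0R
open Pool.PKG
open Pool.T4C72 (WnT RadT SubW)
open Pool.VW33 (FBox chE)
open Pool.ST76 (V0OutP)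
open Pool.AJW (CfB)
open Pool.D2R (WinB)
open Pool.V0B19 (grS)

/-- **The tie in one window** `w`, unit `u`: for all windows of the charts. `Kd`: the degree of the
closed gradients, `ι u`: the size of their coefficients, `s₁ u`: their precision; `φ`: the closeness of
the windows of the gradients, `φ'`: the one of the windows of the charts. -/
def TieE {m : ℕ} (S : PCl m) (c : ℕ → Fin m) (k f D Kd : ℕ) (sn : ℕ → ℝ → ℝ) (Gs : Set ℝ)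
    (al b w u Λ φ φ' ι s₁ : ℝ) (Dr₀ : ℕ) : Prop :=
  ∀ {Dr N' : ℕ} {C₀ a Eb' ηm : ℝ} {ow η σ : ℕ → ℝ} {lv bb : ℕ → ℕ → ℝ} {fb fn : ℕ → ℕ}
    {nb n ks : ℕ}, Dr₀ ≤ Dr →
  WnT k f sn Gs al b w u Λ φ' N' C₀ Eb' ηm ow lv fb fn nb n ks →
  ∃ K₂ κT : ℝ, 0 < K₂ ∧ 0 < κT ∧ Bas S (fun J F A => ∀ {κ : ℝ} {z : ℕ → ℕ → ℕ}
    {g₀ : ℕ → ℕ → ℕ} {Gc : ℕ → PtT F → ℕ → MvPolynomial (Option (Fin m)) ℝ}
    {H : ℕ → LnT F → ℕ → MvPolynomial (Option (Fin m)) ℝ}, κ ≤ κT →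
    WinB F c (k + f) D Dr N' 2 C₀ a Eb' ηm ow η σ lv bb κ z A g₀ Gc H →
    RadT nb n 2 J u ow fb fn z →
    (∀ l < k, CfB F ⌊b * J⌋₊ 1 (c l) A (fun s => s) (fun s => H (fb 0) s l)) →
    (∀ l, k ≤ l → l ≤ k + f → CfB F ⌊w * J⌋₊ 1 (c l) A (fun s => s) (fun s => H (fn 0) s l)) →
    V0OutP F c (k + f) Kd w φ (ι * u) (s₁ * u) K₂ A (g₀ (fn 0)) (chE Gc k fb fn) (Gc (fn n)))

/-- **(TIE)** The tie for the records of the slopes `Sl` and the kinds `κ`, with the property `Q` at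
the window `g` and at points near the window `t`, and with `Z lam` at `g`: in a subclass, in one of
finitely many boxes `x = (ν, μ)`: the window `t + (μ / ν) q`, the unit `q / ν`. Order of the constants:
`al`, `K₀`, `S₀` (the record); `D` (labels of the class); `Kd`, `s₁` (degree and precision of the closed
gradients); `ι` (their size); the boxes `Bx`, the pairs of windows `A₁`, `V₁` of the record (in units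
`q`); `S₂` (the constant of the pairs); `Λ` (the room), `φs` (a bound of `φ`), `Dr₀` (degree of the closed
polynomials of the balls); `φ` (the closeness of the labels, in units of the box); `e` (the errors, in
units); the grid `M₀`, `cb`, `co`; `lam` and more windows `Vv` of the record; `K`, `ε`. -/
def TieEStmt (k f : ℕ) (h : ℝ) (Sl : ℕ → ℝ) (κ : ℕ → Kg) {ι Lm : Type}
    (Q : PropG (k + f + 1) ι) (Z : Lm → PropW (k + f + 1)) : Prop :=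
  ∀ al : ℝ, 0 < al → ∀ K₀ : ℝ, 0 < K₀ → ∀ S₀ : ℕ, 1 ≤ S₀ → ∃ D₁ : ℕ, ∀ D : ℕ, D₁ ≤ D → 1 ≤ D →
  ∃ (Kd : ℕ) (s₁ : ℝ), 0 < s₁ ∧ ∀ ι₀ : ℝ, 0 < ι₀ → ι₀ ≤ 1 →
  ∃ (Bx : Finset (ℕ × ℕ)) (K₁ : ℝ) (N₁ : ℕ) (A₁ V₁ : ℕ → ℝ), 1 ≤ K₁ ∧
    (∀ x ∈ Bx, 1 ≤ x.1 ∧ (x.2 : ℝ) / x.1 ≤ K₁) ∧
    (∀ j < N₁, -K₁ ≤ V₁ j ∧ V₁ j ≤ A₁ j ∧ A₁ j ≤ K₁) ∧
  ∀ S₂ : ℕ, S₀ ≤ S₂ →
  ∃ (Λ φs : ℝ) (Dr₀ : ℕ), 1 ≤ Λ ∧ 0 < φs ∧ ∀ φ : ℝ, 0 < φ → φ ≤ φs → ∃ e : ℝ, 0 < e ∧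
  ∀ (M₀ cb co : ℕ), 1 ≤ M₀ → (∀ x ∈ Bx, x.1 ∣ M₀) → Λ ≤ cb → Λ + K₁ ≤ co →
  ∃ (lam : Lm) (K₂ : ℝ) (Nv : ℕ) (Vv : ℕ → ℝ), (∀ j < Nv, -K₂ ≤ Vv j ∧ Vv j ≤ K₂) ∧
  ∀ K : ℝ, K₂ ≤ K → ∃ ε₀ : ℝ, 0 < ε₀ ∧ ∀ ε : ℝ, 0 < ε → ε ≤ ε₀ →
  ∀ (S : PCl (k + f + 1)) (g₀ : ℝ → ℝ)
    (P : List (Fin (k + f + 1)) × Fin (k + f + 1) → ℝ → ℝ → ℝ)
    (θ : ℝ) (P₂ : ℕ → List (Fin (k + f + 1)) × Fin (k + f + 1) → ℝ → ℝ → ℝ) (θ₂ Eb e₂ : ℕ → ℝ)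
    (c : ℕ → Fin (k + f + 1)) (Pt : ℝ → ℝ → ℝ) (r : ℝ → ℝ) (L Tb : ℕ → ℝ → ℝ → ℝ)
    (G : Set ℝ) (g : ℝ), IsClosed G → g ∈ G →
    (∀ l < k + f + 1, HasDerivAt (fun x => L l x x) (Sl l) g) →
    Z lam S P θ c Pt r L Tb κ G g →
    ∃ (p : ℕ → ι) (M : ℕ) (B₀ B₁ : ℕ → ℝ), (∀ j < M, B₀ j < B₁ j) ∧ ∀ k₀ : ℕ → ℕ,
    (∀ j < M, Q (p j) (k₀ j) S P θ c Pt r L Tb κ G g) → ∃ q₁ : ℝ, 0 < q₁ ∧
  ∀ {N : ℕ} {A V : ℕ → ℝ} {N' : ℕ} {V' : ℕ → ℝ} {q t : ℝ} {x : ℕ → ℝ} {sp : ℕ → ℝ → ℝ} {φ' : ℝ}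
    {lm : ℝ → ℝ}, q < q₁ →
    (∀ j < M, x j ∈ G ∧ t + B₀ j * q ≤ x j ∧ x j ≤ t + B₁ j * q ∧
      Q (p j) (k₀ j) S P θ c Pt r L Tb κ G (x j)) →
    RecG S al g₀ P θ P₂ θ₂ Eb e₂ c Pt r h K₀ g L Tb Sl κ G S₀ N A V S₂ N' V' K ε q t →
    SubW N₁ A₁ V₁ N A V →
    (∀ j < (cb + co) * M₀ + 1, ∃ j' < N', V' j' = chV M₀ cb j) →
    (∀ j < Nv, ∃ j' < N', V' j' = Vv j) → (cb : ℝ) + co + Λ ≤ K →
    φ' ≤ e * q → q / M₀ ≤ φ' →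
    -- the box of the record and the boxes of the list
    (∀ φ'' : ℝ, φ' ≤ φ'' → 400 * φ'' ≤ q → FBox S c k f (fun l v => L l v v) sp
      (grS M₀ cb co t q) (Sl k) (Sl (k + f)) h (t - cb * q) (t + co * q) t q Λ φ'' e lm) →
    (∀ x ∈ Bx, ∃ sp' : ℕ → ℝ → ℝ, ∀ φ'' : ℝ, φ' ≤ φ'' → 400 * φ'' ≤ q / x.1 →
      FBox S c k f (fun l v => L l v v) sp' (grS M₀ cb co t q)
        (Sl k) (Sl (k + f)) h (t - cb * q) (t + co * q) (t + (x.2 : ℝ) / x.1 * q) (q / x.1) Λ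
        φ'' e lm) →
    ∃ S' : PCl (k + f + 1), S'.Ne ∧ (∀ (τ : ℝ) (J : ℕ) (F : Fam (k + f + 1) J)
      (A : F.Ω → Prop), S'.St τ J F A → S.St τ J F A) ∧
    ∃ x ∈ Bx, TieE S' c k f D Kd (fun l v => L l v v) (grS M₀ cb co t q) (Sl k) (t - cb * q)
      (t + (x.2 : ℝ) / x.1 * q) (q / x.1) Λ (φ * (q / x.1)) φ' ι₀ s₁ Dr₀

end Pool.VE76
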