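import Pool.Agent.H76.VE.Core
import Pool.Agent.H72.T4C.VoidF
import Pool.Agent.H3.D2G.RecH

/-!
# Followers of one slope and a steeper target over slope-one places: no record

`void_e`: no record for the slopes one below the place `k`, one slope `1 < s` from `k` to
`k + f - 1` and `s ≤ Sl (k + f)`, the last place thin, from the tie `TieEStmt`.
-/

set_option autoImplicit false

namespace Pool.VE76

open Finset Real MvPolynomial
open Pool.Agent.H49.Ent Pool.Agent.H32.Dense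
open Pool.STK hiding pr2
open Pool.KA Pool.KSAT Pool.K2S Pool.PB Pool.S6C Pool.PKG
open Pool.GEN Pool.LA91 Pool.RCD Pool.OWN68 Pool.V0F Pool.V0T
open Pool.T4C72 (WnT RadT SubW WinbAt winbAt_ex fin_enum vpF vbF mgF subw_mgF nat_pos rec_z
  chV_zoom)
open Pool.VW33 (FBox chE rec_fbox)
open Pool.V0B19 (grV grS)

/-- The grid in a smaller unit. -/
theorem grv_zoom {M₁ cb ν μ : ℕ} (hν : 1 ≤ ν) (t q : ℝ) (j : ℕ) :
    grV M₁ (ν * cb + μ) (t + (μ : ℝ) / ν * q) (q / ν) j = grV (ν * M₁) cb t q j := by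
  have hν0 : (0 : ℝ) < ν := by exact_mod_cast hν
  unfold grV
  rw [← chV_zoom hν]
  field_simp
  ring

theorem ix_zoom {M₁ cb co co₁ ν μ : ℕ} (hco : ν * co = co₁ + μ) :
    ((ν * cb + μ) + co₁) * M₁ + 1 = (cb + co) * (ν * M₁) + 1 := by
  congr 1
  have h1 : (ν * cb + μ) + co₁ = ν * (cb + co) := by
    rw [mul_add, hco]
    ring
  rw [h1]
  ring

/-- The set of the grid in a smaller unit. -/
theorem grs_zoom {M₁ cb co co₁ ν μ : ℕ} (hν : 1 ≤ ν) (hco : ν * co = co₁ + μ) (t q : ℝ) :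
    grS M₁ (ν * cb + μ) co₁ (t + (μ : ℝ) / ν * q) (q / ν) = grS (ν * M₁) cb co t q := by
  unfold grS
  rw [ix_zoom hco]
  simp only [grv_zoom hν]

/-- The numbers of the end. -/
theorem num_e {C s s₁ : ℝ} (hC : 1 ≤ C) (hs : 1 < s) (hs₁ : 0 < s₁) :
    ∃ κ₂ β ζ : ℝ, κ₂ ≤ s₁ ∧ κ₂ ≤ 1 ∧ 0 < β ∧ 32 * β ≤ κ₂ ∧ 32 * β ≤ s - 1 ∧ 0 < ζ ∧
      ζ ≤ 1 / 32 ∧ C * ζ * (s + 1) = β := by
  have hC0 : 0 < C := by linarith
  have hs0 : 0 < s + 1 := by linarith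
  obtain ⟨κm, hκm⟩ : ∃ κm : ℝ, κm = min s₁ 1 := ⟨_, rfl⟩
  have a1 : 0 < κm := by rw [hκm]; exact lt_min hs₁ one_pos
  have a2 : κm ≤ s₁ := by rw [hκm]; exact min_le_left _ _
  have a3 : κm ≤ 1 := by rw [hκm]; exact min_le_right _ _
  obtain ⟨β, hβ⟩ : ∃ β : ℝ, β = min κm (s - 1) / 32 := ⟨_, rfl⟩
  have b1 : 0 < β := by
    rw [hβ]
    have : 0 < min κm (s - 1) := lt_min a1 (by linarith)
    positivity
  have b2 : 32 * β ≤ κm := by
    rw [hβ]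
    have := min_le_left κm (s - 1)
    linarith
  have b3 : 32 * β ≤ s - 1 := by
    rw [hβ]
    have := min_le_right κm (s - 1)
    linarith
  obtain ⟨ζ, hζ⟩ : ∃ ζ : ℝ, ζ = β / (C * (s + 1)) := ⟨_, rfl⟩
  have c1 : 0 < ζ := by rw [hζ]; positivity
  have c2 : C * ζ * (s + 1) = β := by
    rw [hζ]
    field_simp
  have c3 : C * ζ ≤ 1 / 32 := by
    have h1 : C * ζ ≤ C * ζ * (s + 1) := le_mul_of_one_le_right (by positivity) (by linarith)
    linarith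
  have c4 : ζ ≤ C * ζ := le_mul_of_one_le_left c1.le (by linarith)
  exact ⟨κm, β, ζ, a2, a3, b1, b2, b3, c1, by linarith, c2⟩

/-- The box with the velocities of another one. -/
theorem fbox_sp {m : ℕ} {S : PCl m} {c : ℕ → Fin m} {k f : ℕ} {sn sp sp₁ : ℕ → ℝ → ℝ} {G : Set ℝ}
    {al be h b o w u Λ φ φ₁ e : ℝ} {lam : ℝ → ℝ}
    (B₁ : FBox S c k f sn sp₁ G al be h b o w u Λ φ₁ e lam)
    (B : FBox S c k f sn sp G al be h b o w u Λ φ e lam) (hφ : φ ≤ φ₁) :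
    FBox S c k f sn sp₁ G al be h b o w u Λ φ e lam :=
  { B with
    spb := fun i hi => (B₁.spb i hi).trans (by linarith)
    free := B₁.free }

/-- A list after another list. -/
theorem list_app {N₁ N₂ : ℕ} (V₁ V₂ : ℕ → ℝ) {K : ℝ} (h₁ : ∀ j < N₁, -K ≤ V₁ j ∧ V₁ j ≤ K)
    (h₂ : ∀ j < N₂, -K ≤ V₂ j ∧ V₂ j ≤ K) : ∃ V : ℕ → ℝ, (∀ j < N₁, V j = V₁ j) ∧
    (∀ j < N₂, ∃ j' < N₁ + N₂, V j' = V₂ j) ∧ ∀ j < N₁ + N₂, -K ≤ V j ∧ V j ≤ K := by
  refine ⟨fun j => if j < N₁ then V₁ j else V₂ (j - N₁), fun j hj => if_pos hj, fun j hj =>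
    ⟨N₁ + j, by omega, ?_⟩, fun j hj => ?_⟩
  · show (if N₁ + j < N₁ then V₁ (N₁ + j) else V₂ (N₁ + j - N₁)) = V₂ j
    rw [if_neg (by omega), Nat.add_sub_cancel_left]
  · show -K ≤ (if j < N₁ then V₁ j else V₂ (j - N₁)) ∧ (if j < N₁ then V₁ j else V₂ (j - N₁)) ≤ K
    by_cases h : j < N₁
    · rw [if_pos h]
      exact h₁ j h
    · rw [if_neg h]
      exact h₂ _ (by omega)

/-- **No record** for the slopes one below the place `k`, one slope `1 < s` from `k` to `k + f - 1`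
and `s ≤ Sl (k + f)`, the last place thin. -/
theorem void_e {k f : ℕ} {h : ℝ} {Sl : ℕ → ℝ} {κ : ℕ → Kg} {ι Lm : Type}
    {Q : PropG (k + f + 1) ι} {Z : Lm → PropW (k + f + 1)} (hT : TieEStmt k f h Sl κ Q Z)
    (hkf : 1 ≤ k + f) (hSl : ∀ l < k, Sl l = 1) (hκ1 : ∀ l < k, κ l = .one)
    (hSs : ∀ l, k ≤ l → l < k + f → Sl l = Sl k) (hs : 1 < Sl k) (hsb : Sl k ≤ Sl (k + f))
    (hκt : κ (k + f) = .thin) :
    VoidZ (k + f + 1) h Sl κ (sumQ FaQ (sumQ NlaQ (sumQ AttUQ (sumQ ChUQ Q)))) Z := by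
  classical
  intro al₀ hal₀ K₀ hK₀ S₀ hS₀
  obtain ⟨s, hse⟩ : ∃ s, s = Sl k := ⟨_, rfl⟩
  obtain ⟨be, hbe⟩ : ∃ be, be = Sl (k + f) := ⟨_, rfl⟩
  have hs1 : 1 < s := by rw [hse]; exact hs
  have hsbe : s ≤ be := by rw [hse, hbe]; exact hsb
  have hs0 : 0 < s := by linarith
  have hb1 : 1 < be := by linarith
  have hb0 : 0 < be := by linarith
  -- the degrees
  obtain ⟨D₁, hT⟩ := hT al₀ hal₀ K₀ hK₀ S₀ hS₀
  obtain ⟨D₂, hD₂, hwb⟩ := winbAt_ex (k + f + 1) (k + f) S₀ hkf hS₀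
  obtain ⟨D, hD1, hD2⟩ : ∃ D : ℕ, D₁ ≤ D ∧ D₂ ≤ D :=
    ⟨max D₁ D₂, le_max_left _ _, le_max_right _ _⟩
  have hD : 1 ≤ D := hD₂.trans hD2
  obtain ⟨Kd, s₁, hs₁, hT⟩ := hT D hD1 hD
  obtain ⟨C, hC, hend⟩ := end_e (k + f + 1) D Kd k (k + f) (by omega) hD
  have hC1 : (1 : ℝ) ≤ C := by exact_mod_cast hC
  have hC0 : (0 : ℝ) < C := by linarith
  obtain ⟨κ₂, β, ζ, hκs, hκ2, hβ, hβκ, hβs, hζ0, hζ1, hζ⟩ := num_e hC1 hb1 hs₁
  obtain ⟨Bx₀, K₁, N₁, A₁, V₁, hK₁, hBx, hAV₁, hT⟩ := hT (ζ / 2) (by positivity) (by linarith)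
  -- the boxes
  obtain ⟨Bx, hBxe⟩ : ∃ Bx : Finset (ℕ × ℕ), Bx = insert (1, 0) Bx₀ := ⟨_, rfl⟩
  have hB1 : ∀ x ∈ Bx, 1 ≤ x.1 ∧ (x.2 : ℝ) / x.1 ≤ K₁ := by
    intro x hx
    rw [hBxe, Finset.mem_insert] at hx
    rcases hx with rfl | hx
    · refine ⟨le_rfl, ?_⟩
      push_cast
      linarith
    · exact hBx x hx
  have hB0 : ((1, 0) : ℕ × ℕ) ∈ Bx := by
    rw [hBxe]
    exact Finset.mem_insert_self _ _
  have hBs : ∀ x ∈ Bx₀, x ∈ Bx := fun x hx => by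
    rw [hBxe]
    exact Finset.mem_insert_of_mem hx
  obtain ⟨I, bx, hbx1, hbx2⟩ := fin_enum Bx
  obtain ⟨Pr, hPre⟩ : ∃ Pr : ℕ, Pr = ∏ x ∈ Bx, x.1 := ⟨_, rfl⟩
  have hPr1 : 1 ≤ Pr := by
    rw [hPre]
    exact Nat.one_le_iff_ne_zero.2 (Finset.prod_ne_zero_iff.2 fun x hx => by
      have := (hB1 x hx).1
      omega)
  have hPrd : ∀ x ∈ Bx, x.1 ∣ Pr := fun x hx => by
    rw [hPre]
    exact Finset.dvd_prod_of_mem _ hx
  have hPrR : (1 : ℝ) ≤ Pr := by exact_mod_cast hPr1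
  have hνR : ∀ x ∈ Bx, (1 : ℝ) ≤ x.1 ∧ (x.1 : ℝ) ≤ Pr ∧ (0 : ℝ) ≤ (x.2 : ℝ) / x.1 := by
    intro x hx
    refine ⟨by exact_mod_cast (hB1 x hx).1, ?_, by positivity⟩
    exact_mod_cast Nat.le_of_dvd (by omega) (hPrd x hx)
  -- the windows
  refine ⟨K₁ + 1, I + N₁, mgF I (fun i => ((bx i).2 : ℝ) / (bx i).1 + 1 / (bx i).1) A₁,
    mgF I (fun i => ((bx i).2 : ℝ) / (bx i).1 + ζ / 2 / (bx i).1) V₁, by linarith,
    fun j hj => ?_, fun S₂ hS₂ => ?_⟩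
  · unfold mgF
    by_cases h1 : j < I
    · rw [if_pos h1, if_pos h1]
      obtain ⟨g1, g2, g3⟩ := hνR _ (hbx1 j h1)
      have g4 := (hB1 _ (hbx1 j h1)).2
      have g5 : 1 / ((bx j).1 : ℝ) ≤ 1 := by
        rw [div_le_one (by linarith)]
        exact g1
      have g6 : ζ / 2 / ((bx j).1 : ℝ) ≤ 1 / ((bx j).1 : ℝ) :=
        div_le_div_of_nonneg_right (by linarith) (by linarith)
      have g7 : 0 ≤ ζ / 2 / ((bx j).1 : ℝ) := div_nonneg (by linarith) (by linarith)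
      exact ⟨by linarith, by linarith, by linarith⟩
    · rw [if_neg h1, if_neg h1]
      obtain ⟨g1, g2, g3⟩ := hAV₁ (j - I) (by omega)
      exact ⟨by linarith, g2, by linarith⟩
  obtain ⟨Λ, φs, Dr₀, hΛ, hφs, hT⟩ := hT S₂ hS₂
  obtain ⟨Dr, hDr, hDr₀⟩ : ∃ Dr : ℕ, D ≤ Dr ∧ Dr₀ ≤ Dr :=
    ⟨max D Dr₀, le_max_left _ _, le_max_right _ _⟩
  obtain ⟨CB, hCB, hwin⟩ := hwb D hD2 Dr hDr
  -- the errors
  obtain ⟨φL, hφLe⟩ : ∃ φL : ℝ, φL = min φs (min (ζ / 16) (1 / 400)) := ⟨_, rfl⟩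
  have hφL : 0 < φL := by
    rw [hφLe]
    exact lt_min hφs (lt_min (by positivity) (by norm_num))
  have hφLs : φL ≤ φs := by
    rw [hφLe]
    exact min_le_left _ _
  have hφL2 : φL ≤ ζ / 16 := by
    rw [hφLe]
    exact (min_le_right _ _).trans (min_le_left _ _)
  have hφL3 : φL ≤ 1 / 400 := by
    rw [hφLe]
    exact (min_le_right _ _).trans (min_le_right _ _)
  obtain ⟨e, he, hT⟩ := hT φL hφL hφLs
  have hPr0 : (0 : ℝ) < Pr := by linarith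
  obtain ⟨φm, hφme⟩ : ∃ φm : ℝ, φm = min φL e / Pr := ⟨_, rfl⟩
  have hφm : 0 < φm := by
    rw [hφme]
    exact div_pos (lt_min hφL he) hPr0
  have hφmP : Pr * φm ≤ min φL e := by
    rw [hφme]
    field_simp
    exact le_rfl
  have hφmx : ∀ y : ℝ, 0 ≤ y → y ≤ Pr → y * φm ≤ φL ∧ y * φm ≤ e := fun y _ h2 => by
    have h3 : y * φm ≤ Pr * φm := mul_le_mul_of_nonneg_right h2 hφm.le
    exact ⟨h3.trans (hφmP.trans (min_le_left _ _)), h3.trans (hφmP.trans (min_le_right _ _))⟩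
  have hφm1 : φm ≤ φL := by
    have := (hφmx 1 zero_le_one hPrR).1
    linarith
  have hφm2 : φm ≤ e := by
    have := (hφmx 1 zero_le_one hPrR).2
    linarith
  obtain ⟨Cf, hCf⟩ := exists_nat_ge (2 * Λ + 7 * k + 15)
  obtain ⟨cb, hcb⟩ : ∃ cb : ℕ, cb = Cf + 7 * k + 13 := ⟨_, rfl⟩
  obtain ⟨co, hco⟩ := exists_nat_ge (Λ + 1 + K₁)
  obtain ⟨M', hM'⟩ := exists_nat_ge (3 * (1 + s + be) / φm)
  have hM'0 : (0 : ℝ) < M' := lt_of_lt_of_le (by positivity) hM'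
  obtain ⟨M₀, hM₀e⟩ : ∃ M₀ : ℕ, M₀ = Pr * M' := ⟨_, rfl⟩
  have hM₀R : (M₀ : ℝ) = Pr * M' := by rw [hM₀e]; push_cast; ring
  have hM₀ : 3 * (1 + s + be) / φm ≤ M₀ := by
    rw [hM₀R]
    exact hM'.trans (le_mul_of_one_le_left hM'0.le hPrR)
  have hMd : ∀ x ∈ Bx, x.1 ∣ M₀ := fun x hx => by
    rw [hM₀e]
    exact Dvd.dvd.mul_right (hPrd x hx) _
  have hcbR : (cb : ℝ) = Cf + 7 * k + 13 := by rw [hcb]; push_cast; ring
  have hk0 : (0 : ℝ) ≤ k := Nat.cast_nonneg _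
  have hcb0 : (0 : ℝ) ≤ cb := Nat.cast_nonneg _
  have hco0 : (0 : ℝ) ≤ co := Nat.cast_nonneg _
  have hM0 : (0 : ℝ) < M₀ := lt_of_lt_of_le (by positivity) hM₀
  have hM1 : 1 ≤ M₀ := by
    have h2 : 0 < M₀ := by exact_mod_cast hM0
    omega
  have hMφ : 3 * (1 + s + be) / M₀ ≤ φm := by
    rw [div_le_iff₀ hM0]
    rw [div_le_iff₀ hφm] at hM₀
    linarith
  have hMφ1 : 1 / (M₀ : ℝ) ≤ φm := by
    refine le_trans ?_ hMφ
    exact div_le_div_of_nonneg_right (by linarith) hM0.le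
  obtain ⟨lam, K₂, Nv, Vv, hVv, hT⟩ := hT M₀ cb co hM1 (fun x hx => hMd x (hBs x hx)) (by linarith)
    (by linarith)
  obtain ⟨Nc, hNc⟩ : ∃ Nc : ℕ, Nc = (cb + co) * M₀ + 1 := ⟨_, rfl⟩
  rw [← hNc] at hT
  obtain ⟨K', hK'⟩ : ∃ K' : ℝ, K' = cb + co + Λ + be + 10 + (1 + be) * K₁ + 1 + (K₁ + 1) +
    max K₂ 0 := ⟨_, rfl⟩
  have hsK : 0 ≤ (1 + be) * K₁ := by positivity
  have hK20 := le_max_right K₂ 0
  have hK21 := le_max_left K₂ 0
  obtain ⟨ε₀, hε₀, hT⟩ := hT K' (by rw [hK']; linarith)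
  obtain ⟨ε, hεe⟩ : ∃ ε : ℝ, ε = min ε₀ (min (φm / 8) (min (ζ / (4 * C * Pr)) (β / (32 * Pr)))) :=
    ⟨_, rfl⟩
  have hε : 0 < ε := by
    rw [hεe]
    exact lt_min hε₀ (lt_min (by positivity) (lt_min (by positivity) (by positivity)))
  have hεε : ε ≤ ε₀ := by
    rw [hεe]
    exact min_le_left _ _
  have hε1 : ε ≤ φm / 8 := by
    rw [hεe]
    exact (min_le_right _ _).trans (min_le_left _ _)
  have hε3 : C * (ε * Pr) ≤ ζ / 4 := by
    have h1 : ε ≤ ζ / (4 * C * Pr) := by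
      rw [hεe]
      exact (min_le_right _ _).trans ((min_le_right _ _).trans (min_le_left _ _))
    rw [le_div_iff₀ (by positivity)] at h1
    linarith
  have hε4 : ε * Pr ≤ β / 32 := by
    have h1 : ε ≤ β / (32 * Pr) := by
      rw [hεe]
      exact (min_le_right _ _).trans ((min_le_right _ _).trans (min_le_right _ _))
    rw [le_div_iff₀ (by positivity)] at h1
    linarith
  have hVK' : ∀ j < Nc, |chV M₀ cb j| ≤ cb + co := fun j hj =>
    chV_abs (M₀ := M₀) (cb := cb) (co := co) (k := j) hM1 (by rwa [← hNc])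
  obtain ⟨V', hV'1, hV'2, hV'3⟩ := list_app (N₁ := Nc) (N₂ := Nv) (chV M₀ cb) Vv (K := K')
    (fun j hj => by
      have h1 := abs_le.1 (hVK' j hj)
      rw [hK']
      constructor <;> linarith [h1.1, h1.2]) (fun j hj => by
      have h1 := hVv j hj
      rw [hK']
      constructor <;> linarith [h1.1, h1.2])
  refine ⟨lam, K', Nc + Nv, V', by rw [hK']; linarith, hV'3, ε, hε, ?_⟩
  intro S g₀ P θ P₂ θ₂ Eb e₂ c Pt rt L Tb G g hG hgG hder hZ
  obtain ⟨p, M, B₀, B₁, hB, hT⟩ := hT ε hε hεε S g₀ P θ P₂ θ₂ Eb e₂ c Pt rt L Tb G g hG hgG hder hZ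
  obtain ⟨κ', hκ'0, hκ'1⟩ : ∃ κ' : ℚ, (0 : ℝ) < κ' ∧ (κ' : ℝ) < e := exists_rat_btwn he
  obtain ⟨pn, hpn⟩ := exists_nat_ge ((Λ + 2) / e)
  have hpn' : Λ + 2 ≤ e * (pn + 1) := by
    rw [div_le_iff₀ he] at hpn
    linarith
  obtain ⟨Cx, hCx⟩ : ∃ Cx : ℕ × ℕ → ℕ, ∀ x ∈ Bx, x.1 * cb + x.2 = Cx x + 7 * k + 13 ∧
      Cf ≤ Cx x := by
    refine ⟨fun x => x.1 * cb + x.2 - (7 * k + 13), fun x hx => ?_⟩
    have h1 : cb ≤ x.1 * cb := Nat.le_mul_of_pos_left _ (hB1 x hx).1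
    constructor
    · show x.1 * cb + x.2 = x.1 * cb + x.2 - (7 * k + 13) + 7 * k + 13
      omega
    · show Cf ≤ x.1 * cb + x.2 - (7 * k + 13)
      omega
  have hCxR : ∀ x ∈ Bx, 2 * Λ + 7 * k + 15 ≤ (Cx x : ℝ) := fun x hx => by
    have h1 : (Cf : ℝ) ≤ Cx x := by exact_mod_cast (hCx x hx).2
    linarith
  refine ⟨vpF k (fun i => Cx (bx i)) κ' pn I p, 2 * I + 2 + M, vbF I
    (fun i => ((bx i).2 : ℝ) / (bx i).1 - (Cx (bx i) + (7 * k + 12) / 2 - Λ) / (bx i).1)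
    (fun i => ((bx i).2 : ℝ) / (bx i).1 - 1 / (bx i).1) (-1) B₀, vbF I
    (fun i => ((bx i).2 : ℝ) / (bx i).1 - (Cx (bx i) / 2 + 7 * k + 13) / (bx i).1)
    (fun i => ((bx i).2 : ℝ) / (bx i).1) 0 B₁, fun j hj => ?_, fun k₀ hQg => ?_⟩
  · unfold vbF
    by_cases h1 : j < I
    · rw [if_pos h1, if_pos h1]
      have g1 := (hνR _ (hbx1 j h1)).1
      have g2 := hCxR _ (hbx1 j h1)
      refine sub_lt_sub_left (div_lt_div_of_pos_right ?_ (by linarith)) _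
      linarith
    · rw [if_neg h1, if_neg h1]
      by_cases h2 : j < 2 * I
      · rw [if_pos h2, if_pos h2]
        have g1 := (hνR _ (hbx1 (j - I) (by omega))).1
        have g2 : 0 < 1 / ((bx (j - I)).1 : ℝ) := by
          have : (0 : ℝ) < (bx (j - I)).1 := by linarith
          positivity
        linarith
      · rw [if_neg h2, if_neg h2]
        by_cases h3 : j < 2 * I + 2
        · rw [if_pos h3, if_pos h3]
          norm_num
        · rw [if_neg h3, if_neg h3]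
          exact hB _ (by omega)
  have hpj : ∀ j, vpF k (fun i => Cx (bx i)) κ' pn I p (j + (2 * I + 2)) =
      Sum.inr (Sum.inr (Sum.inr (Sum.inr (p j)))) := fun j => by
    unfold vpF
    rw [if_neg (by omega), if_neg (by omega), if_neg (by omega), if_neg (by omega),
      Nat.add_sub_cancel]
  obtain ⟨q₁, hq₁, hT⟩ := hT (fun j => k₀ (j + (2 * I + 2))) fun j hj => by
    have h1 := hQg (j + (2 * I + 2)) (by omega)
    rw [hpj] at h1
    exact h1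
  obtain ⟨mk, hmk, hmk'⟩ := nat_pos (d := fun j => (1 / 2 : ℝ) ^ k₀ j) (2 * I + 2)
    (fun j _ => by positivity)
  have hcc2 : 0 < cb + co + Λ + 2 := by linarith
  refine ⟨min q₁ (mk / (cb + co + Λ + 2)), lt_min hq₁ (by positivity), ?_⟩
  intro q t x hq hx R
  have hq0 := R.q0
  have hqt : q < q₁ := hq.trans_le (min_le_left _ _)
  have hqm : (cb + co + Λ + 2) * q < mk := by
    have h1 := hq.trans_le (min_le_right _ _)
    rw [lt_div_iff₀ hcc2] at h1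
    linarith
  have hqk : ∀ j ≤ 2 * I + 2, (cb + co + Λ + 2) * q ≤ (1 / 2) ^ k₀ j := fun j hj =>
    hqm.le.trans (hmk' j hj)
  have hcbq : 0 ≤ cb * q := by positivity
  have hcoq : 0 ≤ co * q := by positivity
  have hΛq : q ≤ Λ * q := le_mul_of_one_le_left hq0.le hΛ
  have hsq : 0 < s * q := by positivity
  -- the points
  have hAt : AttUQ () (k₀ (2 * I)) S P θ c Pt rt L Tb κ G (x (2 * I)) := by
    obtain ⟨-, -, -, hQ0⟩ := hx (2 * I) (by omega)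
    have e1 : vpF k (fun i => Cx (bx i)) κ' pn I p (2 * I) = Sum.inr (Sum.inr (Sum.inl ())) := by
      unfold vpF
      rw [if_neg (by omega), if_neg (by omega), if_pos rfl]
    rw [e1] at hQ0
    exact hQ0
  have hAt1 : t - q ≤ x (2 * I) ∧ x (2 * I) ≤ t := by
    obtain ⟨-, h1, h2, -⟩ := hx (2 * I) (by omega)
    unfold vbF at h1 h2
    rw [if_neg (by omega), if_neg (by omega), if_pos (by omega)] at h1 h2
    exact ⟨by linarith, by linarith⟩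
  -- the room
  have hK0 : 0 < K' := by rw [hK']; linarith
  have hKbig : (cb : ℝ) + co + Λ + be + 10 + 1 ≤ K' := by rw [hK']; linarith
  have ht0 := R.t0
  have ht1 := R.t1
  -- the labels
  have hmem : ∀ j < Nc, t + chV M₀ cb j * q ∈ G := fun j hj => by
    have h1 := R.memG.2 j (by omega)
    rwa [hV'1 j hj] at h1
  have hattS : ∀ j < Nc, ∃ rk E : ℝ, 0 ≤ rk ∧
      rk ≤ 1 - (1 / 2) ^ k₀ (2 * I) ∧ 0 ≤ E ∧
      E + L (k + f) (t + chV M₀ cb j * q) (t + chV M₀ cb j * q) ≤ 1 - (1 / 2) ^ k₀ (2 * I) ∧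
      LbU S ((range (k + f)).image c) (c (k + f)) (t + chV M₀ cb j * q)
        (L (k + f) (t + chV M₀ cb j * q) (t + chV M₀ cb j * q)) rk E := by
    intro j hj
    refine hAt _ (hmem j hj) ?_
    have h1 := abs_le.1 (hVK' j hj)
    have h2 := mul_le_mul_of_nonneg_right h1.1 hq0.le
    have h3 := mul_le_mul_of_nonneg_right h1.2 hq0.le
    have h4 := hqk (2 * I) (by omega)
    rw [abs_le]
    constructor <;> linarith [hAt1.1, hAt1.2]
  have hhalf : (0 : ℝ) < (1 / 2) ^ k₀ (2 * I) := by positivity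
  have hΛhalf : Λ * q ≤ (1 / 2) ^ k₀ (2 * I) := by
    have h4 := hqk (2 * I) (by omega)
    linarith
  -- the boxes
  have hφ400 : ∀ y : ℝ, 1 ≤ y → y ≤ Pr → 400 * (φm * q) ≤ q / y := fun y h1 h2 => by
    have hy0 : 0 < y := by linarith
    rw [le_div_iff₀ hy0]
    have h3 := (hφmx y hy0.le h2).1
    have h4 := mul_le_mul_of_nonneg_right (h3.trans hφL3) hq0.le
    linarith
  have hboxφ : ∀ z ∈ Bx, ∀ φ'' : ℝ, φm * q ≤ φ'' → 400 * φ'' ≤ q / z.1 → ∃ sp : ℕ → ℝ → ℝ,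
      FBox S c k f (fun l v => L l v v) sp
        (grS M₀ cb co t q) s be h (t - cb * q) (t + co * q) (t + (z.2 : ℝ) / z.1 * q) (q / z.1) Λ
        φ'' e (lh (L (k + f)) G) := by
    intro z hz φ'' hφ1 hφ2
    obtain ⟨i, hi, hiz⟩ := hbx2 z hz
    obtain ⟨g1, g2, g3⟩ := hνR z hz
    have g4 := (hB1 z hz).2
    have hz0 : (0 : ℝ) < z.1 := by linarith
    have hqz : q / z.1 ≤ q := div_le_self hq0.le g1
    have hqz0 : 0 < q / z.1 := by positivity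
    have hq2 : q ≤ (cb + co + Λ + 2) * q := le_mul_of_one_le_left hq0.le (by linarith)
    -- the two points
    have hFa : FaQ (k, Cx z, (1 / 8 : ℚ), κ') (k₀ i) S P θ c Pt rt L Tb κ G (x i) := by
      obtain ⟨-, -, -, hQ0⟩ := hx i (by omega)
      have e1 : vpF k (fun i => Cx (bx i)) κ' pn I p i = Sum.inl (k, Cx z, 1 / 8, κ') := by
        unfold vpF
        rw [if_pos hi]
        simp only [hiz]
      rw [e1] at hQ0
      exact hQ0
    have hFx : t + (z.2 : ℝ) / z.1 * q - (Cx z + (7 * k + 12) / 2 - Λ) * (q / z.1) ≤ x i ∧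
        x i ≤ t + (z.2 : ℝ) / z.1 * q - (Cx z / 2 + 7 * k + 13) * (q / z.1) := by
      obtain ⟨-, h1, h2, -⟩ := hx i (by omega)
      unfold vbF at h1 h2
      rw [if_pos hi] at h1 h2
      simp only [hiz] at h1 h2
      have e1 : ∀ X : ℝ, ((z.2 : ℝ) / z.1 - X / z.1) * q = (z.2 : ℝ) / z.1 * q - X * (q / z.1) :=
        fun X => by ring
      rw [e1] at h1 h2
      exact ⟨by linarith, by linarith⟩
    have hNl : NlaQ pn (k₀ (I + i)) S P θ c Pt rt L Tb κ G (x (I + i)) := by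
      obtain ⟨-, -, -, hQ0⟩ := hx (I + i) (by omega)
      have e1 : vpF k (fun i => Cx (bx i)) κ' pn I p (I + i) = Sum.inr (Sum.inl pn) := by
        unfold vpF
        rw [if_neg (by omega), if_pos (by omega)]
      rw [e1] at hQ0
      exact hQ0
    have hNx : t + (z.2 : ℝ) / z.1 * q - q / z.1 ≤ x (I + i) ∧
        x (I + i) ≤ t + (z.2 : ℝ) / z.1 * q := by
      obtain ⟨-, h1, h2, -⟩ := hx (I + i) (by omega)
      unfold vbF at h1 h2
      rw [if_neg (by omega), if_pos (by omega), Nat.add_sub_cancel_left] at h1 h2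
      simp only [hiz] at h1 h2
      have e1 : ((z.2 : ℝ) / z.1 - 1 / z.1) * q = (z.2 : ℝ) / z.1 * q - q / z.1 := by ring
      rw [e1] at h1
      exact ⟨by linarith, by linarith⟩
    obtain ⟨ν, hν⟩ : ∃ ν, ν = z.1 := ⟨_, rfl⟩
    obtain ⟨μ, hμ⟩ : ∃ μ, μ = z.2 := ⟨_, rfl⟩
    obtain ⟨Cz, hCz⟩ : ∃ Cz, Cz = Cx z := ⟨_, rfl⟩
    have hν1 : 1 ≤ ν := by rw [hν]; exact (hB1 z hz).1
    have hMd' := hMd z hz
    have hcz := (hCx z hz).1
    have hczR := hCxR z hz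
    rw [← hν] at g1 g2 g3 g4 hMd' hz0 hqz hqz0 hFx hNx hcz hφ2 ⊢
    rw [← hμ] at g3 g4 hFx hNx hcz ⊢
    rw [← hCz] at hFx hFa hcz hczR
    clear hν hμ hCz
    obtain ⟨M₁, hM₁⟩ := hMd'
    have hM₁1 : 1 ≤ M₁ := by
      rcases Nat.eq_zero_or_pos M₁ with h1 | h1
      · rw [h1, mul_zero] at hM₁
        omega
      · exact h1
    have hM₁0 : (0 : ℝ) < M₁ := by exact_mod_cast hM₁1
    have hMR : (M₀ : ℝ) = ν * M₁ := by rw [hM₁]; push_cast; ring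
    have hμν : (μ : ℝ) / ν * ν = μ := by field_simp
    have hco1 : Λ + 1 + μ ≤ ν * (co : ℝ) := by
      have h1 := mul_le_mul_of_nonneg_right (show Λ + 1 + (μ : ℝ) / ν ≤ co by linarith) hz0.le
      have h2 : Λ + 1 ≤ (Λ + 1) * ν := le_mul_of_one_le_right (by linarith) g1
      have h3 : (Λ + 1 + (μ : ℝ) / ν) * ν = (Λ + 1) * ν + μ := by rw [add_mul, hμν]
      linarith
    have hco2 : μ ≤ ν * co := by
      have : (μ : ℝ) ≤ ν * co := by linarith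
      exact_mod_cast this
    obtain ⟨co₁, hco₁⟩ : ∃ co₁, ν * co = co₁ + μ := ⟨ν * co - μ, by omega⟩
    have hcoR : (ν : ℝ) * co = co₁ + μ := by exact_mod_cast hco₁
    have hsz : (1 + be) * ((μ : ℝ) / ν) ≤ (1 + be) * K₁ :=
      mul_le_mul_of_nonneg_left g4 (by linarith)
    have hix : ((ν * cb + μ) + co₁) * M₁ + 1 = Nc := by
      rw [ix_zoom hco₁, ← hM₁, hNc]
    have hgv : ∀ j, grV M₁ (ν * cb + μ) (t + (μ : ℝ) / ν * q) (q / ν) j =
        t + chV M₀ cb j * q := fun j => by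
      rw [grv_zoom hν1, ← hM₁]
      rfl
    have hcbc : (((ν * cb + μ : ℕ) : ℝ)) = ν * cb + μ := by push_cast; ring
    have hb := rec_fbox R (M₀ := M₁) (cb := ν * cb + μ) (co := co₁) (Cf := Cz) (pn := pn)
      (kf := k₀ i) (kn := k₀ (I + i)) (κ' := κ') (w := t + (μ : ℝ) / ν * q) (u := q / ν) (Λ := Λ)
      (φ := φ'') (e := e) (s := s) (x₀ := x i) (x₁ := x (I + i)) hM₁1 hqz0 hΛ
      (fun j hj => by
        rw [hgv]
        exact hmem j (by omega)) ?_ hε hSl hκ1 hkf (fun l h1 h2 => by rw [hSs l h1 h2, hse]) hs1.le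
      (by rw [← hbe]; exact hsbe) he ?_ ?_ hφ2 hczR hcz (by linarith) hκ'0 hκ'1.le hpn'
      (fun j hj => by
        obtain ⟨rk, E, h1, h2, h3, h4, h5⟩ := hattS j (by omega)
        rw [hgv]
        have h6 : Λ * (q / ν) ≤ Λ * q := mul_le_mul_of_nonneg_left hqz (by linarith)
        exact ⟨rk, E, h1, by linarith, h3, by linarith, h5⟩) hFa hFx.1 hFx.2 ?_ hNl hNx.1 hNx.2 ?_
    · rw [grs_zoom hν1 hco₁, ← hM₁] at hb
      have e1 : t + (μ : ℝ) / ν * q - ((ν * cb + μ : ℕ) : ℝ) * (q / ν) = t - cb * q := by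
        rw [hcbc]
        field_simp
        ring
      have e2 : t + (μ : ℝ) / ν * q + (co₁ : ℝ) * (q / ν) = t + (co : ℝ) * q := by
        have h1 : (co₁ : ℝ) = ν * co - μ := by linarith
        rw [h1]
        field_simp
        ring
      rw [e1, e2, ← hbe] at hb
      exact hb
    · rw [add_sub_cancel_left, abs_of_nonneg (by positivity), ← hbe, hcbc]
      have h1 : (ν * (cb : ℝ) + μ + co₁ + Λ + 1) * (q / ν) =
          (cb + co) * q + (Λ + 1) * (q / ν) := by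
        have h2 : (co₁ : ℝ) = ν * co - μ := by linarith
        rw [h2]
        field_simp
        ring
      have h2 : (Λ + 1) * (q / ν) ≤ (Λ + 1) * q := mul_le_mul_of_nonneg_left hqz (by linarith)
      have h3 := mul_le_mul_of_nonneg_right hsz hq0.le
      have h4 : (1 + be) * K₁ + cb + co + (Λ + 1) ≤ K' := by rw [hK']; linarith
      have h5 := mul_le_mul_of_nonneg_right h4 hq0.le
      linarith
    · have h5 := mul_le_mul_of_nonneg_right hε1 hq0.le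
      have h6 : 0 ≤ φm * q := by positivity
      linarith
    · have h5 := mul_le_mul_of_nonneg_right hMφ hq0.le
      have h6 : 3 * ((1 + s + Sl (k + f)) * (q / ν / M₁)) = 3 * (1 + s + be) / M₀ * q := by
        rw [← hbe, hMR]
        field_simp
      rw [h6]
      exact h5.trans hφ1
    · exact hqz.trans_lt (hq2.trans_lt (hqm.trans_le (hmk' i (by omega))))
    · have h1 := hqk (I + i) (by omega)
      have h2 : (Λ + 2) * (q / ν) ≤ (Λ + 2) * q :=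
        mul_le_mul_of_nonneg_left hqz (by linarith)
      have h3 : (cb + co + Λ + 2) * q = cb * q + co * q + (Λ + 2) * q := by ring
      rw [h3] at h1
      linarith
  have hbox : ∀ z ∈ Bx, ∃ sp : ℕ → ℝ → ℝ, ∀ φ'' : ℝ, φm * q ≤ φ'' → 400 * φ'' ≤ q / z.1 →
      FBox S c k f (fun l v => L l v v) sp
        (grS M₀ cb co t q) s be h (t - cb * q) (t + co * q) (t + (z.2 : ℝ) / z.1 * q) (q / z.1) Λ
        φ'' e (lh (L (k + f)) G) := by
    intro z hz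
    obtain ⟨g1, g2, -⟩ := hνR z hz
    have h3 := hφ400 _ g1 g2
    obtain ⟨sp, B₁⟩ := hboxφ z hz (q / z.1 / 400) (by linarith) (by linarith)
    refine ⟨sp, fun φ'' h1 h2 => ?_⟩
    obtain ⟨sp', B⟩ := hboxφ z hz φ'' h1 h2
    exact fbox_sp B₁ B (by linarith)
  -- the tie
  obtain ⟨sp₀, hb0⟩ := hbox _ hB0
  have ht0e : t + ((((1, 0) : ℕ × ℕ).2 : ℕ) : ℝ) / (((1, 0) : ℕ × ℕ).1 : ℕ) * q = t := by
    push_cast
    ring
  have ht0f : q / (((((1, 0) : ℕ × ℕ).1 : ℕ)) : ℝ) = q := by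
    push_cast
    ring
  rw [ht0e, ht0f, hse, hbe] at hb0
  obtain ⟨S₃, hne₃, hs₃, z, hz, htie⟩ := hT (x := fun j => x (j + (2 * I + 2))) hqt
    (fun j hj => by
      obtain ⟨y1, y2, y3, y4⟩ := hx (j + (2 * I + 2)) (by omega)
      unfold vbF at y2 y3
      rw [if_neg (by omega), if_neg (by omega), if_neg (by omega), Nat.add_sub_cancel] at y2 y3
      rw [hpj] at y4
      exact ⟨y1, y2, y3, y4⟩) R subw_mgF
    (fun j hj => ⟨j, by omega, hV'1 j hj⟩) hV'2 (by linarith)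
    (mul_le_mul_of_nonneg_right hφm2 hq0.le) (by
      have h1 := mul_le_mul_of_nonneg_right hMφ1 hq0.le
      have h2 : q / (M₀ : ℝ) = 1 / M₀ * q := by ring
      rw [h2]
      exact h1) hb0 (fun z hz => by
      obtain ⟨sp, hsp⟩ := hbox z (hBs z hz)
      rw [hse, hbe] at hsp
      exact ⟨sp, hsp⟩)
  -- no record with the tie
  have hz' := hBs z hz
  obtain ⟨i, hi, hiz⟩ := hbx2 z hz'
  obtain ⟨g1, g2, g3⟩ := hνR z hz'
  have g4 := (hB1 z hz').2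
  have hMd' := hMd z hz'
  have hν1 := (hB1 z hz').1
  obtain ⟨ν, hν⟩ : ∃ ν, ν = z.1 := ⟨_, rfl⟩
  obtain ⟨μ, hμ⟩ : ∃ μ, μ = z.2 := ⟨_, rfl⟩
  rw [← hν] at g1 g2 g3 g4 hMd' hν1 htie
  rw [← hμ] at g3 g4 htie
  have hν0 : (0 : ℝ) < ν := by linarith
  obtain ⟨M₁, hM₁⟩ := hMd'
  have hM₁1 : 1 ≤ M₁ := by
    rcases Nat.eq_zero_or_pos M₁ with h1 | h1
    · rw [h1, mul_zero] at hM₁
      omega
    · exact h1
  have hM₁0 : (0 : ℝ) < M₁ := by exact_mod_cast hM₁1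
  have hMR : (M₀ : ℝ) = ν * M₁ := by rw [hM₁]; push_cast; ring
  have hsz : (1 + be) * ((μ : ℝ) / ν) ≤ (1 + be) * K₁ :=
    mul_le_mul_of_nonneg_left g4 (by linarith)
  have hco1 : Λ + 1 + μ ≤ ν * (co : ℝ) := by
    have h1 := mul_le_mul_of_nonneg_right (show Λ + 1 + (μ : ℝ) / ν ≤ co by linarith) hν0.le
    have h2 : Λ + 1 ≤ (Λ + 1) * ν := le_mul_of_one_le_right (by linarith) g1
    have h3 : (Λ + 1 + (μ : ℝ) / ν) * ν = (Λ + 1) * ν + μ := by field_simp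
    linarith
  have hco2 : μ ≤ ν * co := by
    have : (μ : ℝ) ≤ ν * co := by linarith
    exact_mod_cast this
  obtain ⟨co₁, hco₁⟩ : ∃ co₁, ν * co = co₁ + μ := ⟨ν * co - μ, by omega⟩
  have hcoR : (ν : ℝ) * co = co₁ + μ := by exact_mod_cast hco₁
  have hco₁1 : 1 ≤ co₁ := by
    have : (1 : ℝ) ≤ co₁ := by linarith
    exact_mod_cast this
  have hεν : ε * ν ≤ ε * Pr := mul_le_mul_of_nonneg_left g2 hε.le
  have R' := rec_z R hne₃ hs₃ (cb := cb) (co := co) (ν := ν) (μ := μ) (Λ := Λ) (s := be) hν1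
    (by linarith) (by
      rw [hK']
      have h1 : ε ≤ 1 := by linarith
      linarith) hε hbe.symm (by linarith)
  have hqν0 : 0 < q / ν := by positivity
  have e0 : (1 : ℝ) / ν * q = q / ν := by ring
  have hεy : 2 * ε / (1 / (ν : ℝ)) = 2 * (ε * ν) := by
    field_simp
  have hcbc : (((ν * cb + μ : ℕ) : ℝ)) = ν * cb + μ := by push_cast; ring
  have hix : ((ν * cb + μ) + co₁) * M₁ + 1 = Nc := by
    rw [ix_zoom hco₁, ← hM₁, hNc]
  have e1 : t + (μ : ℝ) / ν * q - ((ν * cb + μ : ℕ) : ℝ) * (1 / ν * q) = t - cb * q := by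
    rw [hcbc]
    field_simp
    ring
  have e3 : ν * φm * (1 / ν * q) = φm * q := by field_simp
  have h1M : 1 / (M₁ : ℝ) ≤ ν * φm := by
    have h1 := mul_le_mul_of_nonneg_left hMφ1 hν0.le
    rw [hMR] at h1
    have h2 : (ν : ℝ) * (1 / (ν * M₁)) = 1 / M₁ := by field_simp
    linarith
  have hεm := mul_le_mul_of_nonneg_right hε1 hν0.le
  have hCε := mul_le_mul_of_nonneg_left hεν hC0.le
  have hgr : grS M₁ (ν * cb + μ) co₁ (t + (μ : ℝ) / ν * q) (1 / ν * q) = grS M₀ cb co t q := by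
    rw [e0, grs_zoom hν1 hco₁, ← hM₁]
  refine core_e hend hC hkf hDr hDr₀ hCB hwin hκs hκ2 hβ hβκ hζ0 hζ1 hφL (by linarith)
    (by positivity) (hφmx ν hν0.le g2).1 R' (by rw [← hbe]; exact hβs) (by rw [← hbe]; exact hζ)
    (M₀ := M₁) (cb := ν * cb + μ) (co := co₁) (Λt := Λ) hM₁1 hco₁1 (by omega)
    (fun j hj => ?_) ?_ (by linarith) (by positivity) (by rw [hεy]; linarith)
    (by rw [hεy]; linarith) (by rw [hεy]; linarith) h1M hSl hs hκt ?_ ?_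
  · show (V' j - (μ : ℝ) / ν) / (1 / ν) = _
    rw [hV'1 j (by omega), hM₁, chV_zoom hν1]
  · rw [hcbc, ← hbe]
    linarith
  · refine ⟨i, by omega, ?_, ?_⟩
    · show (mgF I (fun i => ((bx i).2 : ℝ) / (bx i).1 + 1 / (bx i).1) A₁ i - (μ : ℝ) / ν) /
        (1 / ν) = 1
      unfold mgF
      rw [if_pos hi]
      simp only [hiz, ← hν, ← hμ]
      field_simp
      ring
    · show (mgF I (fun i => ((bx i).2 : ℝ) / (bx i).1 + ζ / 2 / (bx i).1) V₁ i -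
        (μ : ℝ) / ν) / (1 / ν) = ζ / 2
      unfold mgF
      rw [if_pos hi]
      simp only [hiz, ← hν, ← hμ]
      field_simp
      ring
  · rw [hgr, e1, e3, e0]
    exact htie

/-- **No record**, with the slopes at the window. -/
theorem void_eH {k f : ℕ} {h : ℝ} {Sl : ℕ → ℝ} {κ : ℕ → Kg} {ι : Type}
    {Q : PropG (k + f + 1) ι}
    (hT : TieEStmt k f h Sl κ Q (fun _ : Unit => TruW (k + f + 1)))
    (hkf : 1 ≤ k + f) (hSl : ∀ l < k, Sl l = 1) (hκ1 : ∀ l < k, κ l = .one)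
    (hSs : ∀ l, k ≤ l → l < k + f → Sl l = Sl k) (hs : 1 < Sl k) (hsb : Sl k ≤ Sl (k + f))
    (hκt : κ (k + f) = .thin) :
    VoidQH (k + f + 1) h Sl κ (sumQ FaQ (sumQ NlaQ (sumQ AttUQ (sumQ ChUQ Q)))) := by
  have H := void_e hT hkf hSl hκ1 hSs hs hsb hκt
  intro al hal K₀ hK₀ S₀ hS₀
  obtain ⟨K, N, A, V, h1, h2, H⟩ := H al hal K₀ hK₀ S₀ hS₀
  refine ⟨K, N, A, V, h1, h2, fun S₂ hS₂ => ?_⟩
  obtain ⟨lam, K', N', V', h3, h4, ε, hε, H⟩ := H S₂ hS₂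
  exact ⟨K', N', V', h3, h4, ε, hε, fun S g₀ P θ P₂ θ₂ Eb e₂ c Pt r L T G g hG hg hd =>
    H S g₀ P θ P₂ θ₂ Eb e₂ c Pt r L T G g hG hg hd trivial⟩

end Pool.VE76
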